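import Pool.Agent.H52.PE.Algo

/-!
# MP_12176c_lc, Q1: paths of eccentricity less than `k` in connected `{S_k, T_k}`-free graphs
can be found in polynomial time

For every fixed `k` there is a polynomial-time algorithm which outputs, for every connected
`{S_k, T_k}`-free graph, a path of eccentricity less than `k`.
-/

namespace Pool.Agent.Results.MP_12176c_lc.PolyTimePath

open Pool.Agent.PPS Pool.Agent.H52.PE H87.HC

theorem result (k : ℕ) (hk : 1 ≤ k) :
    ∃ f ∈ FP, ∀ (n : ℕ) (G : SimpleGraph (Fin n)), G.Connected →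
      IsEmpty (S k ↪g G) → IsEmpty (T k ↪g G) →
      ∃ (u v : Fin n) (p : G.Walk u v), p.IsPath ∧
        (∀ x, ∃ y ∈ p.support, G.dist x y < k) ∧
        f (encode G) = encSeq (p.support.map Fin.val) := by
  obtain ⟨m, rfl⟩ : ∃ m, k = m + 1 := ⟨k - 1, by omega⟩
  exact ⟨algo m, algo_mem_FP m, algo_spec m⟩

end Pool.Agent.Results.MP_12176c_lc.PolyTimePath
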